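import Pool.Agent.Helper79.OB.Top

/-!
MP_fc0446_an: for every `d ≥ 2`, every radius `R` and every `ε > 0` there is a measure-preserving
bijection (mod null sets) `Φ` between the Bernoulli shifts of `F_d` and of `(ℤ/2)^{*2d}`, with inverse
`Ψ`, which maps almost every orbit onto an orbit and which preserves all orbit distances in the ball of
radius `R` outside a set of measure at most `ε` (`Ψ` too); if `d ≥ 3` then moreover the distances of the
images of neighbours have stretched exponential tails, in both directions.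
-/

open MeasureTheory

namespace Pool.Agent.Results.MP_fc0446_an.AlmostIsometricEquivalence

open Pool.Agent.Helper58.Orb

theorem result (d : ℕ) (hd : 2 ≤ d) (R : ℕ) (ε : ℝ) (hε : 0 < ε) :
    ∃ (Φ : Bern (FreeGroup (Fin d)) → Bern (Gam (2 * d)))
      (Ψ : Bern (Gam (2 * d)) → Bern (FreeGroup (Fin d))),
      MeasurePreserving Φ (bern (FreeGroup (Fin d))) (bern (Gam (2 * d))) ∧
      MeasurePreserving Ψ (bern (Gam (2 * d))) (bern (FreeGroup (Fin d))) ∧
      (∀ᵐ x ∂(bern (FreeGroup (Fin d))), Ψ (Φ x) = x) ∧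
      (∀ᵐ y ∂(bern (Gam (2 * d))), Φ (Ψ y) = y) ∧
      (∀ᵐ x ∂(bern (FreeGroup (Fin d))),
        Set.range (fun g : FreeGroup (Fin d) => Φ (shift g x)) =
          Set.range (fun γ : Gam (2 * d) => shift γ (Φ x))) ∧
      (∀ᵐ y ∂(bern (Gam (2 * d))),
        Set.range (fun γ : Gam (2 * d) => Ψ (shift γ y)) =
          Set.range (fun g : FreeGroup (Fin d) => shift g (Ψ y))) ∧
      bern (FreeGroup (Fin d)) {x | ∃ g h : FreeGroup (Fin d), wordLen (freeGens d) g ≤ R ∧
        wordLen (freeGens d) h ≤ R ∧ orbDist (gamGens (2 * d)) (Φ (shift g x)) (Φ (shift h x)) ≠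
          orbDist (freeGens d) (shift g x) (shift h x)} ≤ ENNReal.ofReal ε ∧
      bern (Gam (2 * d)) {y | ∃ γ η : Gam (2 * d), wordLen (gamGens (2 * d)) γ ≤ R ∧
        wordLen (gamGens (2 * d)) η ≤ R ∧ orbDist (freeGens d) (Ψ (shift γ y)) (Ψ (shift η y)) ≠
          orbDist (gamGens (2 * d)) (shift γ y) (shift η y)} ≤ ENNReal.ofReal ε ∧
      (3 ≤ d → ∃ C c α : ℝ, 0 < c ∧ 0 < α ∧ ∀ n : ℕ,
        (∀ s ∈ freeGens d, bern (FreeGroup (Fin d))
          {x | (n : ℕ∞) < orbDist (gamGens (2 * d)) (Φ x) (Φ (shift s x))} ≤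
            ENNReal.ofReal (C * Real.exp (-(c * (n : ℝ) ^ α)))) ∧
        (∀ t ∈ gamGens (2 * d), bern (Gam (2 * d))
          {y | (n : ℕ∞) < orbDist (freeGens d) (Ψ y) (Ψ (shift t y))} ≤
            ENNReal.ofReal (C * Real.exp (-(c * (n : ℝ) ^ α))))) :=
  Pool.Agent.Helper79.OB.top d hd R ε hε

end Pool.Agent.Results.MP_fc0446_an.AlmostIsometricEquivalence
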