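import Pool.Agent.Helper58.Orb.Groups

/-!
MP_fc0446_an: every measure-preserving orbit isometry between the Bernoulli shifts of `F_d` and
`(ℤ/2)^{*2d}`, in either direction and bijective or not, is non-local: the influences at distance
`k` do not tend to zero in total, and the radius-`k` approximation error is at least
`c (2d-1)^{-k}`.
-/

namespace Pool.Agent.Results.MP_fc0446_an.NonLocalIsometries

open Pool.Agent.Helper58.Orb

theorem result (d : ℕ) (hd : 1 ≤ d) :
    (∀ Φ : Bern (FreeGroup (Fin d)) → Bern (Gam (2 * d)),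
      OrbitIsometry (freeGens d) (gamGens (2 * d)) Φ →
        ∀ t ∈ gamGens (2 * d), NonLocal d (freeGens d) Φ t) ∧
    (∀ Ψ : Bern (Gam (2 * d)) → Bern (FreeGroup (Fin d)),
      OrbitIsometry (gamGens (2 * d)) (freeGens d) Ψ →
        ∀ t ∈ freeGens d, NonLocal d (gamGens (2 * d)) Ψ t) := by
  have c1 : Fintype.card (Fin d × Bool) = 2 * d := by simp [mul_comm]
  have c2 : Fintype.card (Fin (2 * d)) = 2 * d := by simp
  have hne : ∀ s : Fin d × Bool, (freeTree d).inv s ≠ s := by
    rintro ⟨i, b⟩ h
    have h2 : (!b) = b := congrArg Prod.snd h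
    cases b <;> simp at h2
  have : Countable (FreeGroup (Fin d)) := by
    have hinj : Function.Injective (FreeGroup.toWord : FreeGroup (Fin d) → _) :=
      FreeGroup.toWord_injective
    exact hinj.countable
  constructor
  · intro Φ hΦ t ht
    exact nonLocal_of (freeTree d) (gamTree (2 * d)) d c1 c2 hd
      (fun s l => Or.inr ⟨hne s, rfl⟩) hΦ ht
  · intro Ψ hΨ t ht
    exact nonLocal_of (gamTree (2 * d)) (freeTree d) d c2 c1 hd
      (fun s l => Or.inl ⟨rfl, hne l⟩) hΨ ht

end Pool.Agent.Results.MP_fc0446_an.NonLocalIsometries
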