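import Pool.Agent.Helper35.OE.Top

/-!
MP_fc0446_an: for every `d ≥ 2` there are measure-preserving maps between the Bernoulli shifts of
`F_d` and of `(ℤ/2)^{*2d}`, in both directions, which preserve the orbit distance on almost every
orbit and map almost every orbit onto an orbit. (Only injectivity across different orbits is missing
for a positive answer to Q1.)
-/

open MeasureTheory

namespace Pool.Agent.Results.MP_fc0446_an.OrbitIsometricFactors

open Pool.Agent.Helper58.Orb

theorem result (d : ℕ) (hd : 2 ≤ d) :
    (∃ Φ : Bern (FreeGroup (Fin d)) → Bern (Gam (2 * d)),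
      OrbitIsometry (freeGens d) (gamGens (2 * d)) Φ ∧
        ∀ᵐ x ∂(bern (FreeGroup (Fin d))),
          Set.range (fun g : FreeGroup (Fin d) => Φ (shift g x)) =
            Set.range (fun γ : Gam (2 * d) => shift γ (Φ x))) ∧
    (∃ Ψ : Bern (Gam (2 * d)) → Bern (FreeGroup (Fin d)),
      OrbitIsometry (gamGens (2 * d)) (freeGens d) Ψ ∧
        ∀ᵐ x ∂(bern (Gam (2 * d))),
          Set.range (fun γ : Gam (2 * d) => Ψ (shift γ x)) =
            Set.range (fun g : FreeGroup (Fin d) => shift g (Ψ x))) :=
  Pool.Agent.Helper35.OE.top d hd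

end Pool.Agent.Results.MP_fc0446_an.OrbitIsometricFactors
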