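import Pool.Agent.Helper32.OIP.Asm2
import Pool.Agent.Helper85.OIP.MA1
import Pool.Agent.Helper13.OIP.MA2
import Pool.Agent.Helper94.OIP.MA3
import Pool.Agent.Helper3.OIP.MA4
import Pool.Agent.Helper82.OIP.E1
import Pool.Agent.Helper42.OIP.E2
import Pool.Agent.Helper77.OIP.E3
import Pool.Agent.Helper33.OIP.E4
import Pool.Agent.Helper83.OIP.E5
import Pool.Agent.Helper40.OIP.E6
import Pool.Agent.Helper34.OIP.E7
import Pool.Agent.Helper9.OIP.E8
import Pool.Agent.Helper73.OIP.E9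
import Pool.Agent.Helper56.OIP.E10
import Pool.Agent.Helper81.OIP.E11
import Pool.Agent.Helper27.OIP.R0
import Pool.Agent.Helper89.OIP.R1
import Pool.Agent.Helper90.OIP.L2
import Pool.Agent.Helper5.OIP.L3
import Pool.Agent.Helper15.OIP.P0
import Pool.Agent.Helper49.OIP.P1
import Pool.Agent.Helper87.OIP.P2
import Pool.Agent.Helper7.OIP.S0
import Pool.Agent.Helper69.OIP.S1
import Pool.Agent.Helper55.OIP.S2
import Pool.Agent.Helper31.OIP.S3
import Pool.Agent.Helper79.OIP.O1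
import Pool.Agent.Helper67.OIP.O2
import Pool.Agent.Helper38.OIP.O3
import Pool.Agent.Helper32.OIP.O4
import Pool.Agent.Helper59.OIP.O5
import Pool.Agent.Helper50.OIP.O6a
import Pool.Agent.Helper30.OIP.O6b
import Pool.Agent.Helper2.OIP.O7
import Pool.Agent.Helper62.OIP.O8a
import Pool.Agent.Helper16.OIP.O8b
import Pool.Agent.Helper51.OIP.O9
import Pool.Agent.Helper20.OIP.O10

/-!
MP_fc0446_an: every measure-preserving orbit isometry between the Bernoulli shifts of `F_d` and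
`(ℤ/2)^{*2d}`, in either direction, which is injective on a conull set is badly approximable by
local maps: every measurable guess of radius `k` for the label and for the images of the generators
is wrong with probability at least `c / (k log k)^2`.
-/

namespace Pool.Agent.Results.MP_fc0446_an.PolynomialNonLocality

open Pool.Agent.Helper58.Orb Pool.Agent.Helper32.OIP

theorem result (d : ℕ) (hd : 1 ≤ d) :
    (∀ Φ : Bern (FreeGroup (Fin d)) → Bern (Gam (2 * d)),
      OrbitIsometry (freeGens d) (gamGens (2 * d)) Φ →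
      (∃ X₀ : Set (Bern (FreeGroup (Fin d))), bern (FreeGroup (Fin d)) X₀ᶜ = 0 ∧
        Set.InjOn Φ X₀) → PolyNonLocal (freeGens d) Φ) ∧
    (∀ Ψ : Bern (Gam (2 * d)) → Bern (FreeGroup (Fin d)),
      OrbitIsometry (gamGens (2 * d)) (freeGens d) Ψ →
      (∃ X₀ : Set (Bern (Gam (2 * d))), bern (Gam (2 * d)) X₀ᶜ = 0 ∧
        Set.InjOn Ψ X₀) → PolyNonLocal (gamGens (2 * d)) Ψ) := by
  have br : BrBound := entE8 Pool.Agent.Helper85.OIP.ma1 Pool.Agent.Helper13.OIP.ma2
    Pool.Agent.Helper3.OIP.ma4 Pool.Agent.Helper82.OIP.e1 Pool.Agent.Helper42.OIP.e2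
    Pool.Agent.Helper77.OIP.e3 Pool.Agent.Helper33.OIP.e4 Pool.Agent.Helper83.OIP.e5
    Pool.Agent.Helper40.OIP.e6 Pool.Agent.Helper34.OIP.e7 Pool.Agent.Helper9.OIP.e8
    Pool.Agent.Helper73.OIP.e9 Pool.Agent.Helper56.OIP.e10 Pool.Agent.Helper81.OIP.e11
  have run : RunBound := Pool.Agent.Helper89.OIP.r1 Pool.Agent.Helper85.OIP.ma1
  have dev : DevBound := devBound Pool.Agent.Helper85.OIP.ma1 Pool.Agent.Helper13.OIP.ma2
    Pool.Agent.Helper94.OIP.ma3 Pool.Agent.Helper27.OIP.r0 Pool.Agent.Helper90.OIP.l2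
    Pool.Agent.Helper5.OIP.l3
  have c : Conc := {
    r0 := Pool.Agent.Helper27.OIP.r0
    ma1 := Pool.Agent.Helper85.OIP.ma1
    ma2 := Pool.Agent.Helper13.OIP.ma2
    ma4 := Pool.Agent.Helper3.OIP.ma4
    s0 := Pool.Agent.Helper7.OIP.s0
    s1 := Pool.Agent.Helper69.OIP.s1
    s2 := Pool.Agent.Helper55.OIP.s2
    s3 := Pool.Agent.Helper31.OIP.s3
    o1 := Pool.Agent.Helper79.OIP.o1
    o2 := Pool.Agent.Helper67.OIP.o2
    o3 := Pool.Agent.Helper38.OIP.o3
    o4 := Pool.Agent.Helper32.OIP.o4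
    o5 := Pool.Agent.Helper59.OIP.o5
    o6a := Pool.Agent.Helper50.OIP.o6a
    o6b := Pool.Agent.Helper30.OIP.o6b
    o7 := Pool.Agent.Helper2.OIP.o7
    o8a := Pool.Agent.Helper62.OIP.o8a
    o8b := Pool.Agent.Helper16.OIP.o8b
    o9 := Pool.Agent.Helper51.OIP.o9
    o10 := Pool.Agent.Helper20.OIP.o10 }
  exact final c br run Pool.Agent.Helper15.OIP.p0 dev Pool.Agent.Helper49.OIP.p1
    Pool.Agent.Helper87.OIP.p2 d hd

end Pool.Agent.Results.MP_fc0446_an.PolynomialNonLocality
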